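import Mathlib

/-!
Finite simplicial complexes with a simplicial group action, their geometric realizations, the
joins `E_k G`, and the mapping index.
-/

set_option autoImplicit false

open Finset

namespace Pool.Agent.H704Z.Hed

/-- A finite simplicial complex with a simplicial action of the group `G`. -/
structure GComplex (G : Type) [Group G] where
  V : Type
  [fin : Fintype V]
  [dec : DecidableEq V]
  [act : MulAction G V]
  faces : Set (Finset V)
  nonempty_of_mem : ∀ s ∈ faces, s.Nonempty
  down_closed : ∀ s ∈ faces, ∀ t ⊆ s, t.Nonempty → t ∈ faces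
  vertex_mem : ∀ v, {v} ∈ faces
  image_mem : ∀ g : G, ∀ s ∈ faces, s.image (g • ·) ∈ faces

attribute [instance] GComplex.fin GComplex.dec GComplex.act

variable {G : Type} [Group G]

open Classical in
/-- The geometric realization: barycentric coordinate vectors whose support is a face, with the
topology induced from `V → ℝ`. -/
abbrev GComplex.Real (K : GComplex G) : Type :=
  {x : K.V → ℝ // (∀ v, 0 ≤ x v) ∧ ∑ v, x v = 1 ∧ univ.filter (fun v => x v ≠ 0) ∈ K.faces}

/-- The action of `G` on the realization, `(g • x) v = x (g⁻¹ • v)`. -/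
noncomputable instance GComplex.realAction (K : GComplex G) : MulAction G K.Real where
  smul g x := ⟨fun v => x.1 (g⁻¹ • v), fun _ => x.2.1 _,
    (Equiv.sum_comp (MulAction.toPerm g⁻¹) x.1).trans x.2.2.1, by
      convert K.image_mem g _ x.2.2.2 using 1
      ext v
      simp only [mem_filter, mem_univ, true_and, mem_image]
      exact ⟨fun h => ⟨_, h, smul_inv_smul g v⟩, fun ⟨w, h, e⟩ => by rwa [← e, inv_smul_smul]⟩⟩
  one_smul x := Subtype.ext (funext fun v => congrArg x.1 (by rw [inv_one, one_smul]))
  mul_smul g h x := Subtype.ext (funext fun v => congrArg x.1 (by rw [mul_inv_rev, mul_smul]))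

/-- The action on the realization is free. -/
def GComplex.IsFree (K : GComplex G) : Prop := ∀ (g : G) (x : K.Real), g • x = x → g = 1

/-- The action of `G` on `G × Fin (k + 1)` by left multiplication on the first factor. -/
abbrev joinAction (G : Type) [Group G] (k : ℕ) : MulAction G (G × Fin (k + 1)) where
  smul g p := (g * p.1, p.2)
  one_smul _ := Prod.ext (one_mul _) rfl
  mul_smul _ _ _ := Prod.ext (mul_assoc _ _ _) rfl

/-- The `(k + 1)`-fold join `E_k G` of the finite discrete group `G`: the vertices are `k + 1`
copies of `G`, and the faces are the non-empty sets with at most one vertex in each copy. -/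
def EG (G : Type) [Group G] [Fintype G] [DecidableEq G] (k : ℕ) : GComplex G where
  V := G × Fin (k + 1)
  act := joinAction G k
  faces := {s | s.Nonempty ∧ ∀ p ∈ s, ∀ q ∈ s, p.2 = q.2 → p = q}
  nonempty_of_mem _ h := h.1
  down_closed _ h _ ht hn := ⟨hn, fun p hp q hq => h.2 p (ht hp) q (ht hq)⟩
  vertex_mem v := ⟨singleton_nonempty v, fun p hp q hq _ => by
    rw [mem_singleton.1 hp, mem_singleton.1 hq]⟩
  image_mem g s h := ⟨h.1.image _, fun p hp q hq e => by
    obtain ⟨p', hp', rfl⟩ := mem_image.1 hp
    obtain ⟨q', hq', rfl⟩ := mem_image.1 hq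
    rw [h.2 p' hp' q' hq' e]⟩

/-- There is a continuous `G`-equivariant map from `X` to `E_k G`. -/
def HasMap (G : Type) [Group G] [Fintype G] [DecidableEq G] (X : Type) [TopologicalSpace X]
    [MulAction G X] (k : ℕ) : Prop :=
  ∃ f : C(X, (EG G k).Real), ∀ (g : G) (x : X), f (g • x) = g • f x

/-- The mapping index of `X` is `n`: `n` is the least `k` with an equivariant map to `E_k G`. -/
def IsIndex (G : Type) [Group G] [Fintype G] [DecidableEq G] (X : Type) [TopologicalSpace X]
    [MulAction G X] (n : ℕ) : Prop :=
  IsLeast {k | HasMap G X k} n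

end Pool.Agent.H704Z.Hed
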