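import Mathlib

/-!
Logarithmic increments of a nowhere vanishing function along segments.
-/

set_option autoImplicit false

open Complex

namespace Pool.Agent.H704Z.Hed

/-- clamp to the unit interval -/
noncomputable def cl (s : ℝ) : ℝ := max 0 (min 1 s)

theorem cl_cont : Continuous cl := by unfold cl; fun_prop
theorem cl_zero : cl 0 = 0 := by simp [cl]
theorem cl_one : cl 1 = 1 := by simp [cl]
theorem cl_nonneg (s : ℝ) : 0 ≤ cl s := le_max_left _ _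
theorem cl_le (s : ℝ) : cl s ≤ 1 := max_le zero_le_one (min_le_left _ _)

variable {E : Type} [NormedAddCommGroup E] [NormedSpace ℝ E]

def W (F : E → ℂ) (a b : E) (x : ℂ) : Prop :=
  ∃ θ : ℝ → ℂ, Continuous θ ∧ θ 0 = 0 ∧ θ 1 = x ∧
    ∀ s, exp (θ s) * F a = F ((1 - cl s) • a + cl s • b)

theorem lift_unique {θ θ' : ℝ → ℂ} (h : Continuous θ) (h' : Continuous θ')
    (e : ∀ s, exp (θ s) = exp (θ' s)) (e0 : θ 0 = θ' 0) : θ = θ' :=
  Complex.isCoveringMap_exp.eq_of_comp_eq h h' (funext fun s => Subtype.ext (e s)) 0 e0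

theorem W_unique {F : E → ℂ} {a b : E} {x y : ℂ} (ha : F a ≠ 0) (hx : W F a b x)
    (hy : W F a b y) : x = y := by
  obtain ⟨θ, c, h0, h1, h⟩ := hx
  obtain ⟨θ', c', h0', h1', h'⟩ := hy
  have := lift_unique c c' (fun s => mul_right_cancel₀ ha ((h s).trans (h' s).symm))
    (h0.trans h0'.symm)
  rw [← h1, ← h1', this]

theorem W_exp {F : E → ℂ} {a b : E} {x : ℂ} (hx : W F a b x) : exp x * F a = F b := by
  obtain ⟨θ, _, _, h1, h⟩ := hx
  have := h 1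
  rwa [h1, cl_one, sub_self, zero_smul, one_smul, zero_add] at this

theorem tri_lift {S : Set E} {F : E → ℂ} (hF : ContinuousOn F S) (h0 : ∀ x ∈ S, F x ≠ 0)
    (a b c : E)
    (hS : ∀ s r : ℝ, 0 ≤ s → s ≤ 1 → 0 ≤ r → r ≤ 1 →
      (1 - s) • a + (s * (1 - r)) • b + (s * r) • c ∈ S) :
    ∃ x y z, W F a b x ∧ W F b c y ∧ W F a c z ∧ x + y = z := by
  let P : ℝ × ℝ → E := fun p =>
    (1 - cl p.1) • a + (cl p.1 * (1 - cl p.2)) • b + (cl p.1 * cl p.2) • c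
  have hP : ∀ p, P p ∈ S := fun p => hS _ _ (cl_nonneg _) (cl_le _) (cl_nonneg _) (cl_le _)
  have hPc : Continuous P := by
    have := cl_cont
    fun_prop
  let f : C(ℝ × ℝ, {z : ℂ // z ≠ 0}) :=
    ⟨fun p => ⟨F (P p), h0 _ (hP p)⟩, (hF.comp_continuous hPc hP).subtype_mk _⟩
  obtain ⟨Θ, ⟨-, hΘ⟩, -⟩ := Complex.isCoveringMap_exp.existsUnique_continuousMap_lifts f (0, 0)
    (log (F (P (0, 0)))) (Subtype.ext (exp_log (h0 _ (hP _))))
  have hΘ' : ∀ p, exp (Θ p) = F (P p) := fun p => congrArg Subtype.val (congrFun hΘ p)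
  have Pa : ∀ r, P (0, r) = a := fun r => by simp [P, cl_zero]
  have Pb : P (1, 0) = b := by simp [P, cl_zero, cl_one]
  have hconst : Θ (0, 1) = Θ (0, 0) := by
    have := lift_unique (θ := fun r => Θ (0, r)) (θ' := fun _ => Θ (0, 0)) (by fun_prop)
      continuous_const (fun r => by rw [hΘ', hΘ', Pa, Pa]) rfl
    exact congrFun this 1
  refine ⟨Θ (1, 0) - Θ (0, 0), Θ (1, 1) - Θ (1, 0), Θ (1, 1) - Θ (0, 1),
    ⟨fun s => Θ (s, 0) - Θ (0, 0), by fun_prop, sub_self _, rfl, fun s => ?_⟩,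
    ⟨fun r => Θ (1, r) - Θ (1, 0), by fun_prop, sub_self _, rfl, fun r => ?_⟩,
    ⟨fun s => Θ (s, 1) - Θ (0, 1), by fun_prop, sub_self _, rfl, fun s => ?_⟩, by
      rw [hconst]; ring⟩
  · rw [← Pa 0, ← hΘ', ← exp_add, sub_add_cancel, hΘ', Pa]
    simp [P, cl_zero]
  · rw [← Pb, ← hΘ', ← exp_add, sub_add_cancel, hΘ', Pb]
    simp [P, cl_one]
  · rw [← Pa 1, ← hΘ', ← exp_add, sub_add_cancel, hΘ', Pa]
    simp [P, cl_one]

open Classical in
/-- the logarithmic increment along the segment from `a` to `b` -/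
noncomputable def om (F : E → ℂ) (a b : E) : ℂ := if h : ∃ x, W F a b x then h.choose else 0

theorem om_eq {F : E → ℂ} {a b : E} {x : ℂ} (ha : F a ≠ 0) (hx : W F a b x) : om F a b = x := by
  have h : ∃ x, W F a b x := ⟨x, hx⟩
  unfold om
  rw [dif_pos h]
  exact W_unique ha h.choose_spec hx

theorem W_map {S : Set E} {F : E → ℂ} (L : E →ₗ[ℝ] E) (ζ : ℂ) (hL : ∀ x ∈ S, F (L x) = ζ * F x)
    {a b : E} (hS : ∀ s : ℝ, 0 ≤ s → s ≤ 1 → (1 - s) • a + s • b ∈ S) {x : ℂ}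
    (hx : W F a b x) : W F (L a) (L b) x := by
  obtain ⟨θ, c, h0, h1, h⟩ := hx
  refine ⟨θ, c, h0, h1, fun s => ?_⟩
  have ha : a ∈ S := by simpa using hS 0 le_rfl zero_le_one
  rw [← L.map_smul, ← L.map_smul, ← L.map_add, hL _ (hS _ (cl_nonneg s) (cl_le s)), hL _ ha, ← h]
  ring

end Pool.Agent.H704Z.Hed
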