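import Mathlib
import Pool.Agent.H704Z.Hed.Defs
import Pool.Agent.H704Z.Hed.Lift

/-!
Clique complexes, simplicial maps, and the cocycle of an equivariant map to `E_1`.
-/

set_option autoImplicit false

open Finset

namespace Pool.Agent.H704Z.Hed

/-- vectors of barycentric coordinates whose support is a clique of `R` -/
def Good {V : Type} [Fintype V] (R : V → V → Prop) (x : V → ℝ) : Prop :=
  (∀ v, 0 ≤ x v) ∧ ∑ v, x v = 1 ∧ ∀ a b, x a ≠ 0 → x b ≠ 0 → R a b

theorem supp_nonempty {V : Type} [Fintype V] {x : V → ℝ} (h : ∑ v, x v = 1) : ∃ v, x v ≠ 0 := by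
  by_contra hn
  push Not at hn
  simp [hn] at h

variable {G : Type} [Group G]

/-- the clique complex of an invariant reflexive relation -/
def cliq (V : Type) [Fintype V] [DecidableEq V] [MulAction G V] (R : V → V → Prop)
    (hr : ∀ v, R v v) (hi : ∀ (g : G) a b, R a b → R (g • a) (g • b)) : GComplex G where
  V := V
  faces := {s | s.Nonempty ∧ ∀ p ∈ s, ∀ q ∈ s, R p q}
  nonempty_of_mem _ h := h.1
  down_closed _ h _ ht hn := ⟨hn, fun p hp q hq => h.2 p (ht hp) q (ht hq)⟩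
  vertex_mem v := ⟨singleton_nonempty v, fun p hp q hq => by
    rw [mem_singleton.1 hp, mem_singleton.1 hq]; exact hr v⟩
  image_mem g s h := ⟨h.1.image _, fun p hp q hq => by
    obtain ⟨p', hp', rfl⟩ := mem_image.1 hp
    obtain ⟨q', hq', rfl⟩ := mem_image.1 hq
    exact hi g _ _ (h.2 p' hp' q' hq')⟩

/-- `K` is the clique complex of `R` -/
def IsCliq (K : GComplex G) (R : K.V → K.V → Prop) : Prop :=
  ∀ s, s ∈ K.faces ↔ s.Nonempty ∧ ∀ p ∈ s, ∀ q ∈ s, R p q

theorem IsCliq.good {K : GComplex G} {R : K.V → K.V → Prop} (h : IsCliq K R) (x : K.Real) :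
    Good R x.1 :=
  ⟨x.2.1, x.2.2.1, fun a b ha hb => ((h _).1 x.2.2.2).2 a (by simpa using ha) b (by simpa using hb)⟩

/-- a point of the realization -/
def IsCliq.mk {K : GComplex G} {R : K.V → K.V → Prop} (h : IsCliq K R) (x : K.V → ℝ)
    (hx : Good R x) : K.Real :=
  ⟨x, hx.1, hx.2.1, (h _).2 ⟨by
      obtain ⟨v, hv⟩ := supp_nonempty hx.2.1
      exact ⟨v, by simpa using hv⟩,
    fun p hp q hq => hx.2.2 p q (by simpa using hp) (by simpa using hq)⟩⟩

theorem smul_val {K : GComplex G} (g : G) (x : K.Real) (v : K.V) :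
    (g • x).1 v = x.1 (g⁻¹ • v) := rfl

theorem EG_cliq (G : Type) [Group G] [Fintype G] [DecidableEq G] (k : ℕ) :
    IsCliq (EG G k) (fun p q : G × Fin (k + 1) => p.2 = q.2 → p = q) := fun _ => Iff.rfl

/-- push forward of coordinates along a vertex map -/
def push {V U : Type} [Fintype V] [DecidableEq U] (φ : V → U) (x : V → ℝ) : U → ℝ :=
  fun w => ∑ v, if φ v = w then x v else 0

theorem push_cont {V U : Type} [Fintype V] [DecidableEq U] (φ : V → U) :
    Continuous (push φ : (V → ℝ) → U → ℝ) := by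
  refine continuous_pi fun w => continuous_finsetSum _ fun v _ => ?_
  split_ifs
  · exact continuous_apply v
  · exact continuous_const

theorem push_good {V U : Type} [Fintype V] [Fintype U] [DecidableEq U] (φ : V → U)
    {R : V → V → Prop} {R' : U → U → Prop} (hφ : ∀ a b, R a b → R' (φ a) (φ b)) {x : V → ℝ}
    (hx : Good R x) : Good R' (push φ x) := by
  have key : ∀ w, push φ x w ≠ 0 → ∃ v, φ v = w ∧ x v ≠ 0 := by
    intro w hw
    obtain ⟨v, -, hv⟩ := exists_ne_zero_of_sum_ne_zero hw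
    by_cases h : φ v = w
    · exact ⟨v, h, by simpa [h] using hv⟩
    · simp [h] at hv
  refine ⟨fun w => sum_nonneg fun v _ => ?_, ?_, fun a b ha hb => ?_⟩
  · split_ifs
    · exact hx.1 v
    · exact le_rfl
  · unfold push
    rw [sum_comm]
    simpa using hx.2.1
  · obtain ⟨v, rfl, hv⟩ := key a ha
    obtain ⟨w, rfl, hw⟩ := key b hb
    exact hφ _ _ (hx.2.2 _ _ hv hw)

theorem push_equiv {V U : Type} [Fintype V] [DecidableEq U] (ψ φ : V → U) (α : V ≃ V) (β : U ≃ U)
    (h : ∀ v, ψ (α v) = β (φ v)) (x : V → ℝ) (w : U) :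
    push ψ (fun v => x (α.symm v)) w = push φ x (β.symm w) := by
  unfold push
  rw [← Equiv.sum_comp α]
  refine sum_congr rfl fun v _ => ?_
  simp only [h, Equiv.symm_apply_apply, Equiv.eq_symm_apply]

theorem exists_map {K L : GComplex G} {R : K.V → K.V → Prop} {R' : L.V → L.V → Prop}
    (hK : IsCliq K R) (hL : IsCliq L R') (φ : K.V → L.V) (hφ : ∀ a b, R a b → R' (φ a) (φ b))
    (he : ∀ (g : G) v, φ (g • v) = g • φ v) :
    ∃ f : C(K.Real, L.Real), ∀ (g : G) x, f (g • x) = g • f x := by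
  refine ⟨⟨fun x => hL.mk (push φ x.1) (push_good φ hφ (hK.good x)),
    ((push_cont φ).comp continuous_subtype_val).subtype_mk _⟩, fun g x => ?_⟩
  refine Subtype.ext (funext fun w => ?_)
  exact push_equiv φ φ (MulAction.toPerm g) (MulAction.toPerm g) (he g) x.1 w

theorem free_of {K : GComplex G} {R : K.V → K.V → Prop} (hK : IsCliq K R) (u : G)
    (hu : ∀ g : G, g ≠ 1 → g = u ∨ g * g = u) (hR : ∀ v, ¬ R v (u • v)) : K.IsFree := by
  intro g x hx
  by_contra hg
  have hux : u • x = x := by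
    rcases hu g hg with h | h
    · rw [← h, hx]
    · rw [← h, mul_smul, hx, hx]
  obtain ⟨v, hv⟩ := supp_nonempty x.2.2.1
  refine hR v ((hK.good x).2.2 _ _ hv ?_)
  rw [← hux, smul_val, inv_smul_smul]
  exact hv

theorem good_tri {V : Type} [Fintype V] [DecidableEq V] {R : V → V → Prop} (hr : ∀ v, R v v)
    (hs : ∀ a b, R a b → R b a) {a b c : V} (hab : R a b) (hbc : R b c) (hac : R a c)
    {α β γ : ℝ} (hα : 0 ≤ α) (hβ : 0 ≤ β) (hγ : 0 ≤ γ) (h1 : α + β + γ = 1) :
    Good R (α • (Pi.single a 1 : V → ℝ) + β • (Pi.single b 1 : V → ℝ) +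
      γ • (Pi.single c 1 : V → ℝ)) := by
  have key : ∀ v, (α • (Pi.single a 1 : V → ℝ) + β • (Pi.single b 1 : V → ℝ) +
      γ • (Pi.single c 1 : V → ℝ)) v ≠ 0 → v = a ∨ v = b ∨ v = c := by
    intro v hv
    by_contra hn
    push Not at hn
    simp [hn.1, hn.2.1, hn.2.2] at hv
  refine ⟨fun v => ?_, ?_, fun p q hp hq => ?_⟩
  · simp only [Pi.add_apply, Pi.smul_apply, smul_eq_mul, Pi.single_apply]
    split_ifs <;> positivity
  · simp [sum_add_distrib, ← mul_sum, h1]
  · rcases key p hp with rfl | rfl | rfl <;> rcases key q hq with rfl | rfl | rfl <;>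
      first | exact hr _ | assumption | exact hs _ _ ‹_›

theorem good_single {V : Type} [Fintype V] [DecidableEq V] {R : V → V → Prop} (hr : ∀ v, R v v)
    (hs : ∀ a b, R a b → R b a) (v : V) : Good R (Pi.single v 1 : V → ℝ) := by
  simpa using good_tri hr hs (hr v) (hr v) (hr v) zero_le_one le_rfl le_rfl (by norm_num)

theorem good_seg {V : Type} [Fintype V] [DecidableEq V] {R : V → V → Prop} (hr : ∀ v, R v v)
    (hs : ∀ a b, R a b → R b a) {a b : V} (hab : R a b) {s : ℝ} (s0 : 0 ≤ s) (s1 : s ≤ 1) :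
    Good R ((1 - s) • (Pi.single a 1 : V → ℝ) + s • (Pi.single b 1 : V → ℝ)) := by
  have h1 : 0 ≤ 1 - s := by linarith
  have h2 : 1 - s + s + 0 = 1 := by ring
  simpa using good_tri hr hs hab (hr b) hab h1 s0 le_rfl h2

theorem cocycle {K : GComplex G} {R : K.V → K.V → Prop} (hK : IsCliq K R) (hr : ∀ v, R v v)
    (hs : ∀ a b, R a b → R b a) (t : G) (ζ : ℂ) (F : K.Real → ℂ) (hF : Continuous F)
    (h0 : ∀ x, F x ≠ 0) (ht : ∀ x, F (t • x) = ζ * F x) :
    ∃ (ω : K.V → K.V → ℂ) (Z : K.V → ℂ), (∀ v, Z v ≠ 0) ∧ (∀ v, Z (t • v) = ζ * Z v) ∧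
      (∀ a b, R a b → Complex.exp (ω a b) * Z a = Z b) ∧
      (∀ a b c, R a b → R b c → R a c → ω a b + ω b c = ω a c) ∧
      ∀ a b, R a b → ω (t • a) (t • b) = ω a b := by
  classical
  let S : Set (K.V → ℝ) := {x | Good R x}
  let F' : (K.V → ℝ) → ℂ := fun x => if h : Good R x then F (hK.mk x h) else 1
  have hF' : ∀ x (h : Good R x), F' x = F (hK.mk x h) := fun x h => dif_pos h
  have hc : ContinuousOn F' S := by
    rw [continuousOn_iff_continuous_domRestrict]
    have : S.domRestrict F' = fun x : S => F (hK.mk x.1 x.2) := funext fun x => hF' x.1 x.2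
    rw [this]
    exact hF.comp (continuous_subtype_val.subtype_mk _)
  have hn : ∀ x ∈ S, F' x ≠ 0 := fun x hx => by rw [hF' x hx]; exact h0 _
  let δ : K.V → K.V → ℝ := fun v => Pi.single v 1
  have hδ : ∀ v, δ v ∈ S := fun v => good_single hr hs v
  have tri : ∀ a b c, R a b → R b c → R a c → ∃ x y z, W F' (δ a) (δ b) x ∧ W F' (δ b) (δ c) y ∧
      W F' (δ a) (δ c) z ∧ x + y = z := fun a b c hab hbc hac =>
    tri_lift hc hn _ _ _ fun s r s0 s1 r0 r1 =>
      good_tri hr hs hab hbc hac (by linarith) (mul_nonneg s0 (by linarith)) (mul_nonneg s0 r0)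
        (by ring)
  let L : (K.V → ℝ) →ₗ[ℝ] (K.V → ℝ) := LinearMap.funLeft ℝ ℝ (fun v => t⁻¹ • v)
  have hL : ∀ x ∈ S, F' (L x) = ζ * F' x := by
    intro x hx
    have h2 : Good R (L x) := hK.good (t • hK.mk x hx)
    rw [hF' x hx, hF' _ h2, ← ht]
    rfl
  have hLδ : ∀ v, L (δ v) = δ (t • v) := by
    intro v
    funext w
    simp only [L, δ, LinearMap.funLeft_apply, Pi.single_apply, inv_smul_eq_iff]
  refine ⟨fun a b => om F' (δ a) (δ b), fun v => F' (δ v), fun v => hn _ (hδ v), fun v => ?_,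
    fun a b hab => ?_, fun a b c hab hbc hac => ?_, fun a b hab => ?_⟩
  · show F' (δ (t • v)) = _
    rw [← hLδ, hL _ (hδ v)]
  · obtain ⟨x, -, -, hx, -⟩ := tri a b b hab (hr b) hab
    show Complex.exp (om F' (δ a) (δ b)) * _ = _
    rw [om_eq (hn _ (hδ a)) hx]
    exact W_exp hx
  · obtain ⟨x, y, z, hx, hy, hz, e⟩ := tri a b c hab hbc hac
    show om F' (δ a) (δ b) + om F' (δ b) (δ c) = om F' (δ a) (δ c)
    rw [om_eq (hn _ (hδ a)) hx, om_eq (hn _ (hδ b)) hy, om_eq (hn _ (hδ a)) hz, e]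
  · obtain ⟨x, -, -, hx, -⟩ := tri a b b hab (hr b) hab
    show om F' (δ (t • a)) (δ (t • b)) = om F' (δ a) (δ b)
    have hx' := W_map (S := S) L ζ hL (fun s s0 s1 => good_seg hr hs hab s0 s1) hx
    rw [hLδ, hLδ] at hx'
    rw [om_eq (hn _ (hδ a)) hx, om_eq (hn _ (hδ _)) hx']

end Pool.Agent.H704Z.Hed
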