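import Mathlib
import Pool.Agent.H704Z.Hed.Basic

/-!
The counterexample for the cyclic group of order four.
-/

set_option autoImplicit false

open Finset Complex

namespace Pool.Agent.H704Z.Hed

abbrev G4 : Type := Multiplicative (ZMod 4)

def t4 : G4 := Multiplicative.ofAdd 1

theorem gen_equiv {X Y : Type} [MulAction G4 X] [MulAction G4 Y] (f : X → Y)
    (h : ∀ x, f (t4 • x) = t4 • f x) (g : G4) (x : X) : f (g • x) = g • f x := by
  have hg : ∀ g : G4, g = 1 ∨ g = t4 ∨ g = t4 * t4 ∨ g = t4 * (t4 * t4) := by decide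
  rcases hg g with rfl | rfl | rfl | rfl
  · rw [one_smul, one_smul]
  · exact h x
  · simp only [mul_smul, h]
  · simp only [mul_smul, h]

/-! The function on `E_1`. -/

noncomputable def chi (g : G4) : ℂ := I ^ (Multiplicative.toAdd g).val

theorem chi_t (g : G4) : chi (t4 * g) = I * chi g := by
  have hg : ∀ g : G4, (Multiplicative.toAdd (t4 * g)).val = (Multiplicative.toAdd g).val + 1 ∨
      ((Multiplicative.toAdd (t4 * g)).val = 0 ∧ (Multiplicative.toAdd g).val = 3) := by decide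
  unfold chi
  rcases hg g with h | ⟨h, h'⟩
  · rw [h, pow_succ, mul_comm]
  · rw [h, h', ← pow_succ', I_pow_four, pow_zero]

theorem chi_cases (g : G4) : chi g = 1 ∨ chi g = I ∨ chi g = -1 ∨ chi g = -I := by
  have hg : ∀ g : G4, (Multiplicative.toAdd g).val = 0 ∨ (Multiplicative.toAdd g).val = 1 ∨
      (Multiplicative.toAdd g).val = 2 ∨ (Multiplicative.toAdd g).val = 3 := by decide
  unfold chi
  rcases hg g with h | h | h | h <;> rw [h] <;> simp

noncomputable def wt (p : G4 × Fin 2) : ℂ := chi p.1 * (if p.2 = 0 then 1 else 1 + I)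

noncomputable def zf (y : G4 × Fin 2 → ℝ) : ℂ := ∑ p, (y p : ℂ) * wt p

theorem level_sum {y : G4 × Fin 2 → ℝ}
    (hy : Good (fun p q : G4 × Fin 2 => p.2 = q.2 → p = q) y) (l : Fin 2) :
    ∃ g : G4, ∀ c : G4 → ℂ, ∑ h, (y (h, l) : ℂ) * c h = y (g, l) * c g := by
  by_cases h : ∃ g, y (g, l) ≠ 0
  · obtain ⟨g, hg⟩ := h
    refine ⟨g, fun c => sum_eq_single g (fun h _ hh => ?_) (by simp)⟩
    have : y (h, l) = 0 := by
      by_contra hn
      exact hh (congrArg Prod.fst (hy.2.2 _ _ hn hg rfl))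
    simp [this]
  · push Not at h
    exact ⟨1, fun c => by simp [h]⟩

theorem zf_ne {y : G4 × Fin 2 → ℝ}
    (hy : Good (fun p q : G4 × Fin 2 => p.2 = q.2 → p = q) y) : zf y ≠ 0 := by
  obtain ⟨g, hg⟩ := level_sum hy 0
  obtain ⟨h, hh⟩ := level_sum hy 1
  have e1 : zf y = y (g, 0) * chi g + y (h, 1) * (chi h * (1 + I)) := by
    rw [← hg, ← hh (fun h => chi h * (1 + I))]
    unfold zf wt
    rw [Fintype.sum_prod_type_right]
    simp
  have e2 : y (g, 0) + y (h, 1) = 1 := by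
    have h1 := hg (fun _ => 1)
    have h2 := hh (fun _ => 1)
    have h3 := hy.2.1
    rw [Fintype.sum_prod_type_right, Fin.sum_univ_two] at h3
    simp only [mul_one] at h1 h2
    have h1' : ∑ k, y (k, 0) = y (g, 0) := by exact_mod_cast h1
    have h2' : ∑ k, y (k, 1) = y (h, 1) := by exact_mod_cast h2
    rw [← h1', ← h2', h3]
  intro h0
  rw [e1] at h0
  have hre := congrArg Complex.re h0
  have him := congrArg Complex.im h0
  rcases chi_cases g with a | a | a | a <;> rcases chi_cases h with b | b | b | b <;>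
    simp [a, b] at hre him <;> linarith

theorem zf_cont : Continuous zf := by
  unfold zf
  exact continuous_finsetSum _ fun p _ =>
    Continuous.mul (continuous_ofReal.comp (continuous_apply p)) continuous_const

theorem zf_t (y : G4 × Fin 2 → ℝ) : zf (fun p => y (t4⁻¹ * p.1, p.2)) = I * zf y := by
  unfold zf
  rw [mul_sum, ← Equiv.sum_comp ((Equiv.mulLeft t4).prodCongr (Equiv.refl (Fin 2)))]
  refine sum_congr rfl fun p _ => ?_
  have e2 : wt (t4 * p.1, p.2) = I * wt p := by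
    show chi (t4 * p.1) * (if p.2 = 0 then 1 else 1 + I) = _
    rw [chi_t, wt, mul_assoc]
  show (y (t4⁻¹ * (t4 * p.1), p.2) : ℂ) * wt (t4 * p.1, p.2) = _
  rw [e2, inv_mul_cancel_left]
  ring

theorem exists_F {K : GComplex G4} (h : HasMap G4 K.Real 1) :
    ∃ F : K.Real → ℂ, Continuous F ∧ (∀ x, F x ≠ 0) ∧ ∀ x, F (t4 • x) = I * F x := by
  obtain ⟨f, hf⟩ := h
  have hc : Continuous (fun x => ((f x).1 : (EG G4 1).V → ℝ)) :=
    continuous_subtype_val.comp f.continuous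
  refine ⟨fun x => zf (f x).1, zf_cont.comp hc, fun x => zf_ne ((EG_cliq G4 1).good (f x)),
    fun x => ?_⟩
  show zf (f (t4 • x)).1 = I * zf (f x).1
  rw [hf]
  exact zf_t (f x).1

theorem hasMap_one_of_zero {X : Type} [TopologicalSpace X] [MulAction G4 X]
    (h : HasMap G4 X 0) : HasMap G4 X 1 := by
  obtain ⟨f, hf⟩ := h
  obtain ⟨j, hj⟩ := exists_map (EG_cliq G4 0) (EG_cliq G4 1) (fun p => (p.1, 0))
    (fun a b hab _ => by rw [hab (Subsingleton.elim (α := Fin 1) _ _)]) (fun _ _ => rfl)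
  exact ⟨j.comp f, fun g x => by rw [ContinuousMap.comp_apply, hf, hj]; rfl⟩

/-! The first complex: two octahedra. -/

def R1 (p q : G4 × Fin 3) : Prop := (p.1 = q.1 ∨ p.1 = t4 * t4 * q.1) ∧ (p.2 = q.2 → p = q)

instance : DecidableRel R1 := fun _ _ => by unfold R1; infer_instance

def K1 : GComplex G4 :=
  @cliq G4 _ (G4 × Fin 3) _ _ (joinAction G4 2) R1 (by decide) (by decide)

theorem K1_cliq : IsCliq K1 R1 := fun _ => Iff.rfl

theorem R1_refl : ∀ v, R1 v v := by decide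
theorem R1_symm : ∀ a b, R1 a b → R1 b a := by decide

theorem K1_free : K1.IsFree := free_of K1_cliq (t4 * t4) (by decide) (by
  show ∀ v : G4 × Fin 3, ¬ R1 v (t4 * t4 * v.1, v.2)
  decide)

theorem K1_two : HasMap G4 K1.Real 2 :=
  exists_map K1_cliq (EG_cliq G4 2) id (fun _ _ h => h.2) (fun _ _ => rfl)

theorem K1_not : ¬ HasMap G4 K1.Real 1 := by
  intro h
  obtain ⟨F, hF, h0, ht⟩ := exists_F h
  obtain ⟨ω, Z, hZ, hZt, hX, hT, hS⟩ := cocycle K1_cliq R1_refl R1_symm (t4 * t4) (-1) F hF h0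
    (fun x => by rw [mul_smul, ht, ht, ← mul_assoc, I_mul_I])
  let u : G4 := t4 * t4
  have s1 : ω (u, 0) (u, 1) = ω (1, 0) (1, 1) := hS (1, 0) (1, 1) (by decide)
  have s2 : ω (u, 1) (1, 0) = ω (1, 1) (u, 0) := by
    have h3 : ω (u * 1, 1) (u * u, 0) = ω (1, 1) (u, 0) := hS (1, 1) (u, 0) (by decide)
    have h4 : u * u = 1 := by decide
    rwa [h4, mul_one] at h3
  have a1 := hT (1, 2) (1, 0) (1, 1) (by decide) (by decide) (by decide)
  have a2 := hT (1, 2) (1, 1) (u, 0) (by decide) (by decide) (by decide)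
  have a3 := hT (1, 2) (u, 0) (u, 1) (by decide) (by decide) (by decide)
  have a4 := hT (1, 2) (u, 1) (1, 0) (by decide) (by decide) (by decide)
  have c0 : ω (1, 0) (1, 1) + ω (1, 1) (u, 0) = 0 := by
    linear_combination (a1 + a2 + a3 + a4 - s1 - s2) / 2
  have x1 := hX (1, 0) (1, 1) (by decide)
  have x2 := hX (1, 1) (u, 0) (by decide)
  have z1 : Z (u, 0) = -1 * Z (1, 0) := hZt (1, 0)
  have e : exp (ω (1, 0) (1, 1) + ω (1, 1) (u, 0)) * Z (1, 0) = Z (u, 0) := by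
    rw [exp_add, ← x2, ← x1]; ring
  rw [c0, exp_zero, z1] at e
  exact hZ (1, 0) (by linear_combination e / 2)

/-! The second complex: a torus. -/

abbrev V2 : Type := ZMod 6 × ZMod 6

def T2 (p : V2) : V2 := (p.2, p.1 + 3)

abbrev act2 : MulAction G4 V2 where
  smul g p := T2^[(Multiplicative.toAdd g).val] p
  one_smul := by decide
  mul_smul := by decide

def R2 (p q : V2) : Prop :=
  q = p ∨ q = p + (1, 0) ∨ q = p + (0, 1) ∨ q = p + (1, 1) ∨
    p = q + (1, 0) ∨ p = q + (0, 1) ∨ p = q + (1, 1)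

instance : DecidableRel R2 := fun _ _ => by unfold R2; infer_instance

theorem R2_refl : ∀ v, R2 v v := fun _ => Or.inl rfl
theorem R2_symm : ∀ a b, R2 a b → R2 b a := by decide
theorem R2_T : ∀ a b, R2 a b → R2 (T2 a) (T2 b) := by decide

theorem R2_iter (n : ℕ) (a b : V2) (h : R2 a b) : R2 (T2^[n] a) (T2^[n] b) := by
  induction n with
  | zero => exact h
  | succ n ih => rw [Function.iterate_succ_apply', Function.iterate_succ_apply']; exact R2_T _ _ ih

def K2 : GComplex G4 :=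
  @cliq G4 _ V2 _ _ act2 R2 R2_refl (fun _ a b h => R2_iter _ a b h)

theorem K2_cliq : IsCliq K2 R2 := fun _ => Iff.rfl

theorem K2_free : K2.IsFree := free_of K2_cliq (t4 * t4) (by decide) (by
  show ∀ v : V2, ¬ R2 v (T2^[2] v)
  decide)

def gam (p : V2) : G4 :=
  Multiplicative.ofAdd (if p.1.val < 3 then (if p.2.val < 3 then 0 else 1)
    else (if p.2.val < 3 then 3 else 2))

def col (p : V2) : Fin 3 := ⟨(p.1.val + p.2.val) % 3, Nat.mod_lt _ (by norm_num)⟩

theorem K2_two : HasMap G4 K2.Real 2 :=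
  exists_map K2_cliq (EG_cliq G4 2) (fun p => (gam p, col p))
    (by
      show ∀ a b : V2, R2 a b → col a = col b → (gam a, col a) = (gam b, col b)
      decide)
    (by
      show ∀ (g : G4) (v : V2), (gam (T2^[(Multiplicative.toAdd g).val] v),
        col (T2^[(Multiplicative.toAdd g).val] v)) = (g * gam v, col v)
      decide)

theorem K2_not : ¬ HasMap G4 K2.Real 1 := by
  intro h
  obtain ⟨F, hF, h0, ht⟩ := exists_F h
  obtain ⟨ω, Z, hZ, hZt, hX, hT, hS⟩ := cocycle K2_cliq R2_refl R2_symm t4 I F hF h0 ht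
  let H : ZMod 6 → ZMod 6 → ℂ := fun i j => ω (i, j) (i + 1, j)
  let V : ZMod 6 → ZMod 6 → ℂ := fun i j => ω (i, j) (i, j + 1)
  have sq : ∀ i j, H i j + V (i + 1) j = V i j + H i (j + 1) := by
    intro i j
    have r : ∀ i j : ZMod 6, R2 (i, j) (i + 1, j) ∧ R2 (i + 1, j) (i + 1, j + 1) ∧
      R2 (i, j) (i + 1, j + 1) ∧ R2 (i, j) (i, j + 1) ∧ R2 (i, j + 1) (i + 1, j + 1) := by decide
    obtain ⟨r1, r2, r3, r4, r5⟩ := r i j
    exact (hT _ _ _ r1 r2 r3).trans (hT _ _ _ r4 r5 r3).symm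
  have sH : ∀ i j, V j (i + 3) = H i j := by
    intro i j
    have r : ∀ i j : ZMod 6, R2 (i, j) (i + 1, j) := by decide
    have := hS _ _ (r i j)
    have e : i + 3 + 1 = i + 1 + 3 := by ring
    show ω (j, i + 3) (j, i + 3 + 1) = _
    rw [e]
    exact this
  have sV : ∀ i j, H j (i + 3) = V i j := by
    intro i j
    have r : ∀ i j : ZMod 6, R2 (i, j) (i, j + 1) := by decide
    exact hS _ _ (r i j)
  have q00 : H 0 0 + V 1 0 = V 0 0 + H 0 1 := sq 0 0
  have q01 : H 0 1 + V 1 1 = V 0 1 + H 0 2 := sq 0 1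
  have q02 : H 0 2 + V 1 2 = V 0 2 + H 0 3 := sq 0 2
  have q10 : H 1 0 + V 2 0 = V 1 0 + H 1 1 := sq 1 0
  have q11 : H 1 1 + V 2 1 = V 1 1 + H 1 2 := sq 1 1
  have q12 : H 1 2 + V 2 2 = V 1 2 + H 1 3 := sq 1 2
  have q20 : H 2 0 + V 3 0 = V 2 0 + H 2 1 := sq 2 0
  have q21 : H 2 1 + V 3 1 = V 2 1 + H 2 2 := sq 2 1
  have q22 : H 2 2 + V 3 2 = V 2 2 + H 2 3 := sq 2 2
  have a0 : H 0 3 = V 0 0 := sV 0 0
  have a1 : H 1 3 = V 0 1 := sV 0 1
  have a2 : H 2 3 = V 0 2 := sV 0 2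
  have b0 : V 3 3 = H 0 3 := sH 0 3
  have b1 : V 3 4 = H 1 3 := sH 1 3
  have b2 : V 3 5 = H 2 3 := sH 2 3
  have c0 : H 3 0 = V 3 3 := sV 3 3
  have c1 : H 4 0 = V 3 4 := sV 3 4
  have c2 : H 5 0 = V 3 5 := sV 3 5
  have d0 : V 3 0 = H 3 3 := sH 3 3
  have d1 : V 3 1 = H 4 3 := sH 4 3
  have d2 : V 3 2 = H 5 3 := sH 5 3
  have e0 : H 3 3 = V 0 3 := sV 0 3
  have e1 : H 4 3 = V 0 4 := sV 0 4
  have e2 : H 5 3 = V 0 5 := sV 0 5
  have f0 : V 0 3 = H 0 0 := sH 0 0
  have f1 : V 0 4 = H 1 0 := sH 1 0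
  have f2 : V 0 5 = H 2 0 := sH 2 0
  have key : H 0 0 + H 1 0 + H 2 0 = V 0 0 + V 0 1 + V 0 2 := by
    linear_combination (q00 + q01 + q02 + q10 + q11 + q12 + q20 + q21 + q22 + a0 + a1 + a2
      - d0 - d1 - d2 - e0 - e1 - e2 - f0 - f1 - f2) / 2
  have x0 : exp (H 0 0) * Z (0, 0) = Z (1, 0) := hX (0, 0) (1, 0) (by decide)
  have x1 : exp (H 1 0) * Z (1, 0) = Z (2, 0) := hX (1, 0) (2, 0) (by decide)
  have x2 : exp (H 2 0) * Z (2, 0) = Z (3, 0) := hX (2, 0) (3, 0) (by decide)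
  have y0 : exp (V 0 0) * Z (0, 0) = Z (0, 1) := hX (0, 0) (0, 1) (by decide)
  have y1 : exp (V 0 1) * Z (0, 1) = Z (0, 2) := hX (0, 1) (0, 2) (by decide)
  have y2 : exp (V 0 2) * Z (0, 2) = Z (0, 3) := hX (0, 2) (0, 3) (by decide)
  have hx : exp (H 0 0 + H 1 0 + H 2 0) * Z (0, 0) = Z (3, 0) := by
    rw [exp_add, exp_add, ← x2, ← x1, ← x0]; ring
  have hy : exp (V 0 0 + V 0 1 + V 0 2) * Z (0, 0) = Z (0, 3) := by
    rw [exp_add, exp_add, ← y2, ← y1, ← y0]; ring
  have z1 : Z (0, 3) = I * Z (0, 0) := hZt (0, 0)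
  have z2 : Z (0, 0) = I * Z (3, 0) := hZt (3, 0)
  rw [key, hy, z1] at hx
  rw [← hx, ← mul_assoc, I_mul_I] at z2
  exact hZ (0, 0) (by linear_combination z2 / 2)

/-! The product. -/

def f0 (p : V2) : G4 × Fin 2 :=
  (if p.1.val < 3 then 1 else t4 * t4, if p.1.val % 3 = 2 then 1 else 0)

def f1 (p : V2) : G4 × Fin 2 := (t4 * (f0 (T2^[3] p)).1, (f0 (T2^[3] p)).2)

theorem f0_R : ∀ a b : V2, R2 a b → (f0 a).2 = (f0 b).2 → f0 a = f0 b := by decide
theorem f1_R : ∀ a b : V2, R2 a b → (f1 a).2 = (f1 b).2 → f1 a = f1 b := by decide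
theorem f1_T : ∀ v : V2, f1 (T2 v) = (t4 * (f0 v).1, (f0 v).2) := by decide
theorem f0_T : ∀ v : V2, f0 (T2 v) = (t4 * (f1 v).1, (f1 v).2) := by decide

def ev (v : G4 × Fin 3) : Prop := v.1 = 1 ∨ v.1 = t4 * t4

instance : DecidablePred ev := fun _ => by unfold ev; infer_instance

noncomputable def mu (p : G4 × Fin 3 → ℝ) : ℝ := ∑ v, if ev v then p v else 0

theorem mu_cont : Continuous mu := by
  refine continuous_finsetSum _ fun v _ => ?_
  split_ifs
  · exact continuous_apply v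
  · exact continuous_const

theorem mu_cases {p : G4 × Fin 3 → ℝ} (hp : Good R1 p) : mu p = 0 ∨ mu p = 1 := by
  by_cases h : ∃ v, ev v ∧ p v ≠ 0
  · obtain ⟨v, hv, hpv⟩ := h
    right
    rw [← hp.2.1]
    refine sum_congr rfl fun w _ => ?_
    split_ifs with hw
    · rfl
    · by_contra hn
      have r : ∀ v w : G4 × Fin 3, R1 v w → ev v → ev w := by decide
      exact hw (r v w (hp.2.2 _ _ hpv (Ne.symm hn)) hv)
  · left
    push Not at h
    refine sum_eq_zero fun w _ => ?_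
    split_ifs with hw
    · exact h w hw
    · rfl

theorem mu_t {p : G4 × Fin 3 → ℝ} (hp : Good R1 p) :
    mu (fun v => p (t4⁻¹ * v.1, v.2)) = 1 - mu p := by
  rw [← hp.2.1, eq_sub_iff_add_eq]
  unfold mu
  rw [← Equiv.sum_comp ((Equiv.mulLeft t4).prodCongr (Equiv.refl (Fin 3))), ← sum_add_distrib]
  refine sum_congr rfl fun v _ => ?_
  show (if ev (t4 * v.1, v.2) then p (t4⁻¹ * (t4 * v.1), v.2) else 0) + _ = _
  rw [inv_mul_cancel_left]
  have r : ∀ v : G4 × Fin 3, ev (t4 * v.1, v.2) ↔ ¬ ev v := by decide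
  by_cases hv : ev v
  · simp [r, hv]
  · simp [r, hv]

theorem prod_one : HasMap G4 (K1.Real × K2.Real) 1 := by
  let Φ : K1.Real × K2.Real → (G4 × Fin 2 → ℝ) := fun x =>
    mu x.1.1 • push f0 x.2.1 + (1 - mu x.1.1) • push f1 x.2.1
  have hΦ : ∀ x, Good (fun p q : G4 × Fin 2 => p.2 = q.2 → p = q) (Φ x) := by
    intro x
    rcases mu_cases (K1_cliq.good x.1) with h | h
    · have : Φ x = push f1 x.2.1 := by
        show mu x.1.1 • push f0 x.2.1 + (1 - mu x.1.1) • push f1 x.2.1 = _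
        rw [h, zero_smul, zero_add, sub_zero, one_smul]
      rw [this]
      exact push_good f1 f1_R (K2_cliq.good x.2)
    · have : Φ x = push f0 x.2.1 := by
        show mu x.1.1 • push f0 x.2.1 + (1 - mu x.1.1) • push f1 x.2.1 = _
        rw [h, sub_self, zero_smul, add_zero, one_smul]
      rw [this]
      exact push_good f0 f0_R (K2_cliq.good x.2)
  have c1 : Continuous (fun x : K1.Real × K2.Real => (x.1.1 : K1.V → ℝ)) :=
    continuous_subtype_val.comp continuous_fst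
  have c2 : Continuous (fun x : K1.Real × K2.Real => (x.2.1 : K2.V → ℝ)) :=
    continuous_subtype_val.comp continuous_snd
  have c3 : Continuous (fun x : K1.Real × K2.Real => mu x.1.1) := mu_cont.comp c1
  have hc : Continuous Φ :=
    (c3.smul ((push_cont f0).comp c2)).add
      ((continuous_const.sub c3).smul ((push_cont f1).comp c2))
  refine ⟨⟨fun x => (EG_cliq G4 1).mk (Φ x) (hΦ x), hc.subtype_mk _⟩, gen_equiv _ fun x => ?_⟩
  refine Subtype.ext (funext fun w => ?_)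
  have e0 := push_equiv (V := K2.V) (U := (EG G4 1).V) f1 f0 (MulAction.toPerm t4)
    (MulAction.toPerm t4) f1_T x.2.1 w
  have e1 := push_equiv (V := K2.V) (U := (EG G4 1).V) f0 f1 (MulAction.toPerm t4)
    (MulAction.toPerm t4) f0_T x.2.1 w
  have e2 : mu (t4 • x.1).1 = 1 - mu x.1.1 := mu_t (K1_cliq.good x.1)
  show mu (t4 • x.1).1 * push f0 (t4 • x.2).1 w + (1 - mu (t4 • x.1).1) * push f1 (t4 • x.2).1 w =
    mu x.1.1 * push f0 x.2.1 (t4⁻¹ • w) + (1 - mu x.1.1) * push f1 x.2.1 (t4⁻¹ • w)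
  have e0' : push f1 (t4 • x.2).1 w = push f0 x.2.1 (t4⁻¹ • w) := e0
  have e1' : push f0 (t4 • x.2).1 w = push f1 x.2.1 (t4⁻¹ • w) := e1
  rw [e0', e1', e2]
  ring

theorem E0_vals (y : (EG G4 0).Real) (v : (EG G4 0).V) : y.1 v = 0 ∨ y.1 v = 1 := by
  have hy := (EG_cliq G4 0).good y
  by_cases h : y.1 v = 0
  · exact Or.inl h
  · right
    refine Eq.trans (Eq.symm ?_) hy.2.1
    refine sum_eq_single v (fun w _ hw => ?_) (by simp)
    by_contra hn
    exact hw (hy.2.2 _ _ hn h (Subsingleton.elim (α := Fin 1) _ _))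

theorem const_path {c : ℝ → ℝ} (hc : Continuous c) (h : ∀ s, c s = 0 ∨ c s = 1) : c 0 = c 1 := by
  by_contra hn
  have key : ∀ a b, c a = 0 → c b = 1 → False := by
    intro a b ha hb
    obtain ⟨s, hs⟩ := intermediate_value_univ a b hc
      (show (1 / 2 : ℝ) ∈ Set.Icc (c a) (c b) by rw [ha, hb]; constructor <;> norm_num)
    rcases h s with e | e <;> rw [e] at hs <;> norm_num at hs
  rcases h 0 with a | a <;> rcases h 1 with b | b
  · exact hn (a.trans b.symm)
  · exact key _ _ a b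
  · exact key _ _ b a
  · exact hn (a.trans b.symm)

theorem prod_not_zero : ¬ HasMap G4 (K1.Real × K2.Real) 0 := by
  rintro ⟨f, hf⟩
  let d1 : G4 × Fin 3 → K1.Real := fun v =>
    K1_cliq.mk (Pi.single v 1) (good_single R1_refl R1_symm v)
  let d2 : V2 → K2.Real := fun v =>
    K2_cliq.mk (Pi.single v 1) (good_single R2_refl R2_symm v)
  have step : ∀ a a' b b', R1 a a' → R2 b b' → f (d1 a, d2 b) = f (d1 a', d2 b') := by
    intro a a' b b' ha hb
    let γ1 : ℝ → K1.Real := fun s =>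
      K1_cliq.mk _ (good_seg R1_refl R1_symm ha (cl_nonneg s) (cl_le s))
    let γ2 : ℝ → K2.Real := fun s =>
      K2_cliq.mk _ (good_seg R2_refl R2_symm hb (cl_nonneg s) (cl_le s))
    have hcl := cl_cont
    have c1 : Continuous γ1 := Continuous.subtype_mk (f := fun s : ℝ =>
      (1 - cl s) • (Pi.single a 1 : G4 × Fin 3 → ℝ) + cl s • (Pi.single a' 1 : G4 × Fin 3 → ℝ))
      (by fun_prop) _
    have c2 : Continuous γ2 := Continuous.subtype_mk (f := fun s : ℝ =>
      (1 - cl s) • (Pi.single b 1 : V2 → ℝ) + cl s • (Pi.single b' 1 : V2 → ℝ))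
      (by fun_prop) _
    have p0 : (γ1 0, γ2 0) = (d1 a, d2 b) := by
      refine Prod.ext (Subtype.ext ?_) (Subtype.ext ?_)
      · show (1 - cl 0) • (Pi.single a 1 : G4 × Fin 3 → ℝ) +
          cl 0 • (Pi.single a' 1 : G4 × Fin 3 → ℝ) = Pi.single a 1
        rw [cl_zero, sub_zero, one_smul, zero_smul, add_zero]
      · show (1 - cl 0) • (Pi.single b 1 : V2 → ℝ) + cl 0 • (Pi.single b' 1 : V2 → ℝ) =
          Pi.single b 1
        rw [cl_zero, sub_zero, one_smul, zero_smul, add_zero]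
    have p1 : (γ1 1, γ2 1) = (d1 a', d2 b') := by
      refine Prod.ext (Subtype.ext ?_) (Subtype.ext ?_)
      · show (1 - cl 1) • (Pi.single a 1 : G4 × Fin 3 → ℝ) +
          cl 1 • (Pi.single a' 1 : G4 × Fin 3 → ℝ) = Pi.single a' 1
        rw [cl_one, sub_self, one_smul, zero_smul, zero_add]
      · show (1 - cl 1) • (Pi.single b 1 : V2 → ℝ) + cl 1 • (Pi.single b' 1 : V2 → ℝ) =
          Pi.single b' 1
        rw [cl_one, sub_self, one_smul, zero_smul, zero_add]
    refine Subtype.ext (funext fun v => ?_)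
    have c3 : Continuous (fun s => ((f (γ1 s, γ2 s)).1 : (EG G4 0).V → ℝ)) :=
      continuous_subtype_val.comp (f.continuous.comp (c1.prodMk c2))
    have := const_path ((continuous_apply v).comp c3) (fun s => E0_vals (f (γ1 s, γ2 s)) v)
    simp only [Function.comp] at this
    rwa [p0, p1] at this
  let u : G4 := t4 * t4
  have chain : f (d1 (1, 0), d2 (0, 0)) = f (d1 (u, 0), d2 (3, 3)) :=
    ((step (1, 0) (1, 1) (0, 0) (1, 1) (by decide) (by decide)).trans
      (step (1, 1) (u, 0) (1, 1) (2, 2) (by decide) (by decide))).trans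
      (step (u, 0) (u, 0) (2, 2) (3, 3) (by decide) (by decide))
  have e : (d1 (u, 0), d2 (3, 3)) = u • (d1 (1, 0), d2 (0, 0)) := by
    refine Prod.ext (Subtype.ext (funext fun v => ?_)) (Subtype.ext (funext fun v => ?_))
    · have r : ∀ v : G4 × Fin 3, v = (u, 0) ↔ (u⁻¹ * v.1, v.2) = (1, 0) := by decide
      show (Pi.single (u, 0) 1 : G4 × Fin 3 → ℝ) v =
        (Pi.single (1, 0) 1 : G4 × Fin 3 → ℝ) (u⁻¹ * v.1, v.2)
      simp only [Pi.single_apply, r v]
    · have r : ∀ v : V2, v = (3, 3) ↔ T2^[(Multiplicative.toAdd u⁻¹).val] v = (0, 0) := by decide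
      show (Pi.single (3, 3) 1 : V2 → ℝ) v =
        (Pi.single (0, 0) 1 : V2 → ℝ) (T2^[(Multiplicative.toAdd u⁻¹).val] v)
      simp only [Pi.single_apply, r v]
  rw [e, hf] at chain
  have fr : (EG G4 0).IsFree := free_of (EG_cliq G4 0) u (by decide) (by
    show ∀ v : G4 × Fin 1, ¬ (v.2 = v.2 → v = (u * v.1, v.2))
    decide)
  exact absurd (fr u _ chain.symm) (by decide)

theorem index_two {X : Type} [TopologicalSpace X] [MulAction G4 X] (h2 : HasMap G4 X 2)
    (h1 : ¬ HasMap G4 X 1) : IsIndex G4 X 2 := by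
  refine ⟨h2, fun k hk => ?_⟩
  by_contra hn
  have : k = 0 ∨ k = 1 := by omega
  rcases this with rfl | rfl
  · exact h1 (hasMap_one_of_zero hk)
  · exact h1 hk

theorem prod_index : IsIndex G4 (K1.Real × K2.Real) 1 := by
  refine ⟨prod_one, fun k hk => ?_⟩
  by_contra hn
  have : k = 0 := by omega
  subst this
  exact prod_not_zero hk

end Pool.Agent.H704Z.Hed
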